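import Mathlib
set_option autoImplicit false
open Complex Filter Topology
open scoped Real

namespace Recip

/-- θ(x, τ) tends to 1 as Im τ → ∞ for real x. -/
lemma tendsto_theta_one {α : Type*} {l : Filter α} (τ : α → ℂ) (x : ℝ)
    (h : Tendsto (fun t => (τ t).im) l atTop) :
    Tendsto (fun t => jacobiTheta₂ (x : ℂ) (τ t)) l (𝓝 1) := by
  have h1 : ∀ᶠ t in l, 1 ≤ (τ t).im := h.eventually_ge_atTop 1
  have hsum : Summable (fun n : ℤ => Real.exp (-π * (1 * (n : ℝ) ^ 2 - 2 * 0 * |(n : ℝ)|))) := by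
    have := summable_pow_mul_jacobiTheta₂_term_bound 0 one_pos 0
    simpa using this
  have hlim : Tendsto (fun t => ∑' n : ℤ, jacobiTheta₂_term n (x : ℂ) (τ t)) l
      (𝓝 (∑' n : ℤ, if n = 0 then (1 : ℂ) else 0)) := by
    refine tendsto_tsum_of_dominated_convergence hsum ?_ ?_
    · intro n
      by_cases hn : n = 0
      · subst hn
        simp only [jacobiTheta₂_term, if_true]
        simp only [Int.cast_zero, mul_zero, zero_mul, ne_eq, OfNat.ofNat_ne_zero, not_false_eq_true, zero_pow,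
          add_zero, Complex.exp_zero]
        exact tendsto_const_nhds
      · simp only [hn, if_false]
        rw [tendsto_zero_iff_norm_tendsto_zero]
        have h2 : ∀ t, ‖jacobiTheta₂_term n (x : ℂ) (τ t)‖ = Real.exp (-(π * (n : ℝ) ^ 2 * (τ t).im)) := by
          intro t
          rw [norm_jacobiTheta₂_term]
          congr 1
          simp
        simp only [h2]
        refine Real.tendsto_exp_neg_atTop_nhds_zero.comp ?_
        have hpos : 0 < π * (n : ℝ) ^ 2 := by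
          have : (n : ℝ) ≠ 0 := by exact_mod_cast hn
          positivity
        exact h.const_mul_atTop hpos
    · filter_upwards [h1] with t ht n
      have := norm_jacobiTheta₂_term_le (S := 0) (T := 1) one_pos (z := (x : ℂ)) (τ := τ t) (by simp) ht n
      simpa using this
  simpa [jacobiTheta₂] using hlim

/-- the weighted theta series -/
noncomputable def S (f : ℤ → ℂ) (x : ℝ) (δ : ℂ) : ℂ := ∑' n : ℤ, f n * cexp (π * I * δ * ((n : ℂ) + x) ^ 2)

lemma S_eq (c : ℕ) [NeZero c] (f : ℤ → ℂ) (hf : ∀ m n : ℤ, f (m * c + n) = f n) (x : ℝ) (δ : ℂ) (hδ : 0 < δ.im) :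
    S f x δ = ∑ s : Fin c, f (s : ℕ) * (1 / (-I * (c ^ 2 * δ)) ^ (1 / 2 : ℂ) *
      jacobiTheta₂ ((((s : ℕ) : ℝ) + x) / c : ℝ) (-1 / (c ^ 2 * δ))) := by
  have hc : (c : ℂ) ≠ 0 := Nat.cast_ne_zero.mpr (NeZero.ne c)
  have hcr : (0 : ℝ) < c := by exact_mod_cast Nat.pos_of_ne_zero (NeZero.ne c)
  have hδ0 : δ ≠ 0 := by rintro rfl; simp at hδ
  have him : 0 < ((c : ℂ) ^ 2 * δ).im := by
    have : ((c : ℂ) ^ 2 * δ).im = (c : ℝ) ^ 2 * δ.im := by
      rw [show ((c : ℂ) ^ 2 * δ) = (((c : ℝ) ^ 2 : ℝ) : ℂ) * δ by push_cast; ring, im_ofReal_mul]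
    rw [this]; positivity
  -- each residue class
  have hclass : ∀ s : Fin c, HasSum (fun m : ℤ => f (m * c + (s : ℕ)) *
      cexp (π * I * δ * (((m * c + (s : ℕ) : ℤ) : ℂ) + x) ^ 2))
      (f (s : ℕ) * (1 / (-I * (c ^ 2 * δ)) ^ (1 / 2 : ℂ) *
        jacobiTheta₂ ((((s : ℕ) : ℝ) + x) / c : ℝ) (-1 / (c ^ 2 * δ)))) := by
    intro s
    have h1 := hasSum_jacobiTheta₂_term ((c : ℂ) * ((s : ℕ) + x) * δ) him
    have h2 := h1.mul_left (f (s : ℕ) * cexp (π * I * δ * ((s : ℕ) + x) ^ 2))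
    have hterm : (fun m : ℤ => f (m * c + (s : ℕ)) *
        cexp (π * I * δ * (((m * c + (s : ℕ) : ℤ) : ℂ) + x) ^ 2)) =
        fun m : ℤ => f (s : ℕ) * cexp (π * I * δ * ((s : ℕ) + x) ^ 2) *
          jacobiTheta₂_term m ((c : ℂ) * ((s : ℕ) + x) * δ) ((c : ℂ) ^ 2 * δ) := by
      ext m
      rw [hf, jacobiTheta₂_term, mul_assoc (f _), ← Complex.exp_add]
      congr 2
      push_cast
      ring
    have e1 : (c : ℂ) * ((s : ℕ) + x) * δ / (c ^ 2 * δ) = (((((s : ℕ) : ℝ) + x) / c : ℝ) : ℂ) := by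
      push_cast; field_simp
    have e2 : cexp (π * I * δ * ((s : ℕ) + x) ^ 2) * cexp (-π * I * ((c : ℂ) * ((s : ℕ) + x) * δ) ^ 2 / (c ^ 2 * δ)) = 1 := by
      rw [← Complex.exp_add, Complex.exp_eq_one_iff]
      refine ⟨0, ?_⟩
      field_simp
      ring
    have hval : f (s : ℕ) * (1 / (-I * (c ^ 2 * δ)) ^ (1 / 2 : ℂ) *
        jacobiTheta₂ ((((s : ℕ) : ℝ) + x) / c : ℝ) (-1 / (c ^ 2 * δ))) =
        f (s : ℕ) * cexp (π * I * δ * ((s : ℕ) + x) ^ 2) *
          jacobiTheta₂ ((c : ℂ) * ((s : ℕ) + x) * δ) ((c : ℂ) ^ 2 * δ) := by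
      rw [jacobiTheta₂_functional_equation ((c : ℂ) * ((s : ℕ) + x) * δ), e1]
      calc f (s : ℕ) * (1 / (-I * (c ^ 2 * δ)) ^ (1 / 2 : ℂ) *
        jacobiTheta₂ ((((s : ℕ) : ℝ) + x) / c : ℝ) (-1 / (c ^ 2 * δ)))
          = f (s : ℕ) * (1 / (-I * (c ^ 2 * δ)) ^ (1 / 2 : ℂ) *
        jacobiTheta₂ ((((s : ℕ) : ℝ) + x) / c : ℝ) (-1 / (c ^ 2 * δ))) * 1 := by rw [mul_one]
        _ = _ := by rw [← e2]; ring
    rw [hterm, hval]
    exact h2
  -- summability
  have h4 : Summable fun p : Fin c × ℤ => f (p.2 * c + (p.1 : ℕ)) *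
      cexp (π * I * δ * (((p.2 * c + (p.1 : ℕ) : ℤ) : ℂ) + x) ^ 2) := by
    rw [← summable_norm_iff, summable_prod_of_nonneg (fun _ => norm_nonneg _)]
    refine ⟨fun s => (hclass s).summable.norm, (hasSum_fintype _).summable⟩
  have h5 := h4.tsum_prod' (fun s => (hclass s).summable)
  have h6 : (∑' (b : Fin c) (m : ℤ), f (m * c + (b : ℕ)) *
      cexp (π * I * δ * (((m * c + (b : ℕ) : ℤ) : ℂ) + x) ^ 2)) =
      ∑ s : Fin c, f (s : ℕ) * (1 / (-I * (c ^ 2 * δ)) ^ (1 / 2 : ℂ) *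
      jacobiTheta₂ ((((s : ℕ) : ℝ) + x) / c : ℝ) (-1 / (c ^ 2 * δ))) := by
    rw [tsum_fintype]
    exact Finset.sum_congr rfl fun s _ => (hclass s).tsum_eq
  rw [S, ← (Int.divModEquiv c).symm.tsum_eq, ← (Equiv.prodComm (Fin c) ℤ).tsum_eq, ← h6]
  refine Eq.trans ?_ h5
  rfl

lemma real_mul_cpow_half {r : ℝ} (hr : 0 < r) {z : ℂ} (hz : z ≠ 0) :
    ((r : ℂ) * z) ^ (1 / 2 : ℂ) = (Real.sqrt r : ℂ) * z ^ (1 / 2 : ℂ) := by
  rw [Complex.cpow_def_of_ne_zero (mul_ne_zero (by exact_mod_cast hr.ne') hz),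
    Complex.cpow_def_of_ne_zero hz, Complex.log_ofReal_mul hr hz, add_mul, Complex.exp_add]
  congr 1
  rw [Real.sqrt_eq_rpow, Complex.ofReal_cpow hr.le, Complex.cpow_def_of_ne_zero (by exact_mod_cast hr.ne')]
  rw [Complex.ofReal_log hr.le]
  push_cast
  rfl

lemma tendsto_S (c : ℕ) [NeZero c] (f : ℤ → ℂ) (hf : ∀ m n : ℤ, f (m * c + n) = f n) (x : ℝ)
    (w : ℝ → ℂ) (w0 : ℂ) (hw : Tendsto w (𝓝[>] 0) (𝓝 w0)) (hw0 : 0 < w0.im) :
    Tendsto (fun ε : ℝ => (Real.sqrt ε : ℂ) * S f x (ε * w ε)) (𝓝[>] 0)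
      (𝓝 (1 / (c * (-I * w0) ^ (1 / 2 : ℂ)) * ∑ s : Fin c, f (s : ℕ))) := by
  have hc : (c : ℂ) ≠ 0 := Nat.cast_ne_zero.mpr (NeZero.ne c)
  have hcr : (0 : ℝ) < c := by exact_mod_cast Nat.pos_of_ne_zero (NeZero.ne c)
  have him : Tendsto (fun ε => (w ε).im) (𝓝[>] 0) (𝓝 w0.im) := (Complex.continuous_im.tendsto _).comp hw
  have hev : ∀ᶠ ε in 𝓝[>] (0 : ℝ), w0.im / 2 < (w ε).im := him.eventually_const_lt (by linarith)
  have hw0' : w0 ≠ 0 := by rintro rfl; simp at hw0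
  -- the theta factors tend to one
  have hth : ∀ s : Fin c, Tendsto (fun ε : ℝ => jacobiTheta₂ ((((s : ℕ) : ℝ) + x) / c : ℝ) (-1 / (c ^ 2 * (ε * w ε))))
      (𝓝[>] 0) (𝓝 1) := by
    intro s
    apply tendsto_theta_one
    have h1 : Tendsto (fun ε : ℝ => (w ε).im / Complex.normSq (w ε)) (𝓝[>] 0) (𝓝 (w0.im / Complex.normSq w0)) :=
      him.div ((Complex.continuous_normSq.tendsto _).comp hw) (by simpa using hw0')
    have h2 : Tendsto (fun ε : ℝ => (1 / (c : ℝ) ^ 2) * (ε⁻¹ * ((w ε).im / Complex.normSq (w ε)))) (𝓝[>] 0) atTop := by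
      refine Tendsto.const_mul_atTop (by positivity) ?_
      refine Tendsto.atTop_mul_pos ?_ tendsto_inv_nhdsGT_zero h1
      exact div_pos hw0 (Complex.normSq_pos.mpr hw0')
    refine h2.congr' ?_
    filter_upwards [self_mem_nhdsWithin, hev] with ε hε hwε
    have hε0 : (0 : ℝ) < ε := hε
    have hwne : w ε ≠ 0 := by
      intro h0; rw [h0] at hwε; simp at hwε; linarith
    have : (-1 / ((c : ℂ) ^ 2 * (ε * w ε))) = (((1 / ((c : ℝ) ^ 2 * ε)) : ℝ) : ℂ) * (-(w ε)⁻¹) := by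
      push_cast
      have : (ε : ℂ) ≠ 0 := by exact_mod_cast hε0.ne'
      field_simp
    rw [this, im_ofReal_mul, neg_im, inv_im]
    field_simp
  have hpow : Tendsto (fun ε : ℝ => (-I * w ε) ^ (1 / 2 : ℂ)) (𝓝[>] 0) (𝓝 ((-I * w0) ^ (1 / 2 : ℂ))) := by
    have h1 : Tendsto (fun ε : ℝ => -I * w ε) (𝓝[>] 0) (𝓝 (-I * w0)) := hw.const_mul _
    refine h1.cpow tendsto_const_nhds ?_
    left
    simpa using hw0
  have hne : (-I * w0) ^ (1 / 2 : ℂ) ≠ 0 := by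
    rw [Complex.cpow_def_of_ne_zero (by simpa using hw0')]
    exact Complex.exp_ne_zero _
  have hmain : Tendsto (fun ε : ℝ => ∑ s : Fin c, f (s : ℕ) * (1 / (c * (-I * w ε) ^ (1 / 2 : ℂ)) *
      jacobiTheta₂ ((((s : ℕ) : ℝ) + x) / c : ℝ) (-1 / (c ^ 2 * (ε * w ε))))) (𝓝[>] 0)
      (𝓝 (∑ s : Fin c, f (s : ℕ) * (1 / (c * (-I * w0) ^ (1 / 2 : ℂ)) * 1))) := by
    refine tendsto_finsetSum _ fun s _ => ?_
    refine Tendsto.const_mul _ ?_
    refine Tendsto.mul ?_ (hth s)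
    exact Tendsto.div tendsto_const_nhds (hpow.const_mul _) (mul_ne_zero hc hne)
  have hval : (∑ s : Fin c, f (s : ℕ) * (1 / (c * (-I * w0) ^ (1 / 2 : ℂ)) * 1)) =
      1 / (c * (-I * w0) ^ (1 / 2 : ℂ)) * ∑ s : Fin c, f (s : ℕ) := by
    rw [Finset.mul_sum]; exact Finset.sum_congr rfl fun s _ => by ring
  rw [hval] at hmain
  refine hmain.congr' ?_
  filter_upwards [self_mem_nhdsWithin, hev] with ε hε hwε
  have hε0 : (0 : ℝ) < ε := hε
  have hwim : 0 < (w ε).im := by linarith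
  have hwne : w ε ≠ 0 := by
    intro h0; rw [h0] at hwim; simp at hwim
  have hδ : 0 < ((ε : ℂ) * w ε).im := by rw [im_ofReal_mul]; positivity
  rw [S_eq c f hf x _ hδ, Finset.mul_sum]
  refine Finset.sum_congr rfl fun s _ => ?_
  have h1 : -I * ((c : ℂ) ^ 2 * (ε * w ε)) = (((c : ℝ) ^ 2 * ε : ℝ) : ℂ) * (-I * w ε) := by
    push_cast; ring
  have h2 : Real.sqrt ((c : ℝ) ^ 2 * ε) = c * Real.sqrt ε := by
    rw [Real.sqrt_mul (by positivity), Real.sqrt_sq hcr.le]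
  have hsq : (Real.sqrt ε : ℂ) ≠ 0 := by
    have := Real.sqrt_pos.mpr hε0
    exact_mod_cast this.ne'
  have hne' : (-I * w ε) ^ (1 / 2 : ℂ) ≠ 0 := by
    rw [Complex.cpow_def_of_ne_zero (by simpa using hwne)]
    exact Complex.exp_ne_zero _
  rw [h1, real_mul_cpow_half (by positivity) (by simpa using hwne), h2]
  push_cast
  field_simp

lemma neg_I_cpow_half : (-I : ℂ) ^ (1 / 2 : ℂ) = cexp (-(π * I / 4)) := by
  rw [Complex.cpow_def_of_ne_zero (by simp), Complex.log_neg_I]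
  congr 1
  ring

/-- Reciprocity for quadratic Gauss sums (Landsberg-Schaar, general form). -/
theorem reciprocity (a c : ℕ) [NeZero a] [NeZero c] (b : ℤ) (hab : Even ((a : ℤ) * c + b)) :
    ∑ n : Fin c, cexp (π * I * (a * ((n : ℕ) : ℂ) ^ 2 + b * ((n : ℕ) : ℂ)) / c) =
      (Real.sqrt (c / a) : ℂ) * cexp (π * I / 4) * cexp (-(π * I * b ^ 2 / (4 * a * c))) *
        ∑ n : Fin a, cexp (π * I * (b * ((n : ℕ) : ℂ) - c * ((n : ℕ) : ℂ) ^ 2) / a) := by
  have ha : (a : ℂ) ≠ 0 := Nat.cast_ne_zero.mpr (NeZero.ne a)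
  have hc : (c : ℂ) ≠ 0 := Nat.cast_ne_zero.mpr (NeZero.ne c)
  have har : (0 : ℝ) < a := by exact_mod_cast Nat.pos_of_ne_zero (NeZero.ne a)
  have hcr : (0 : ℝ) < c := by exact_mod_cast Nat.pos_of_ne_zero (NeZero.ne c)
  let f1 : ℤ → ℂ := fun n => cexp (π * I * (a * (n : ℂ) ^ 2 + b * n) / c)
  let f2 : ℤ → ℂ := fun n => cexp (π * I * (b * (n : ℂ) - c * (n : ℂ) ^ 2) / a)
  have hf1 : ∀ m n : ℤ, f1 (m * c + n) = f1 n := by
    intro m n
    obtain ⟨k, hk⟩ : Even (m * (a * c * m + b)) := by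
      rcases Int.even_or_odd m with hm | hm
      · exact hm.mul_right _
      · apply Even.mul_left
        obtain ⟨j, hj⟩ := hm
        obtain ⟨i, hi⟩ := hab
        refine ⟨a * c * j + i, ?_⟩
        rw [hj]
        linear_combination hi
    simp only [f1]
    rw [Complex.exp_eq_exp_iff_exists_int]
    refine ⟨a * m * n + k, ?_⟩
    have hk' : (m : ℂ) * (a * c * m + b) = k + k := by exact_mod_cast hk
    push_cast
    field_simp
    linear_combination (c : ℂ) * hk'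
  have hf2 : ∀ m n : ℤ, f2 (m * a + n) = f2 n := by
    intro m n
    obtain ⟨k, hk⟩ : Even (m * (b - a * c * m)) := by
      rcases Int.even_or_odd m with hm | hm
      · exact hm.mul_right _
      · apply Even.mul_left
        obtain ⟨j, hj⟩ := hm
        obtain ⟨i, hi⟩ := hab
        refine ⟨- a * c * j + i - a * c, ?_⟩
        rw [hj]
        linear_combination hi
    simp only [f2]
    rw [Complex.exp_eq_exp_iff_exists_int]
    refine ⟨- c * m * n + k, ?_⟩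
    have hk' : (m : ℂ) * (b - a * c * m) = k + k := by exact_mod_cast hk
    push_cast
    field_simp
    linear_combination (a : ℂ) * hk'
  let z : ℝ := b / (2 * c)
  have hz : (z : ℂ) = b / (2 * c) := by simp [z]
  let τ : ℝ → ℂ := fun ε => a / c + ε * I
  have hτ0 : Tendsto τ (𝓝[>] 0) (𝓝 (a / c)) := by
    have : Tendsto τ (𝓝 0) (𝓝 (τ 0)) := by
      have hcont : Continuous τ := by fun_prop
      exact hcont.tendsto 0
    have h0 : τ 0 = a / c := by simp [τ]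
    rw [h0] at this
    exact this.mono_left nhdsWithin_le_nhds
  have hac : (a : ℂ) / c ≠ 0 := div_ne_zero ha hc
  have hτne : ∀ ε : ℝ, 0 < ε → τ ε ≠ 0 := by
    intro ε hε h0
    have : (τ ε).im = ε := by
      simp [τ]
    rw [h0] at this
    simp at this
    linarith
  -- left side
  have hL : Tendsto (fun ε : ℝ => (Real.sqrt ε : ℂ) * S f1 0 (ε * I)) (𝓝[>] 0)
      (𝓝 (1 / (c * (-I * I) ^ (1 / 2 : ℂ)) * ∑ s : Fin c, f1 (s : ℕ))) :=
    tendsto_S c f1 hf1 0 (fun _ => I) I tendsto_const_nhds (by simp)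
  -- right side
  let w : ℝ → ℂ := fun ε => c * I / (a * τ ε)
  have hw : Tendsto w (𝓝[>] 0) (𝓝 (c * I / (a * (a / c)))) :=
    Tendsto.div tendsto_const_nhds (hτ0.const_mul _) (mul_ne_zero ha hac)
  have hw0 : (c * I / (a * (a / c)) : ℂ) = (((c : ℝ) / a) ^ 2 : ℝ) * I := by
    push_cast; field_simp
  rw [hw0] at hw
  have hR : Tendsto (fun ε : ℝ => (Real.sqrt ε : ℂ) * S f2 (-z) (ε * w ε)) (𝓝[>] 0)
      (𝓝 (1 / (a * (-I * ((((c : ℝ) / a) ^ 2 : ℝ) * I)) ^ (1 / 2 : ℂ)) * ∑ s : Fin a, f2 (s : ℕ))) :=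
    tendsto_S a f2 hf2 (-z) w _ hw (by rw [im_ofReal_mul, I_im, mul_one]; positivity)
  have hpow : Tendsto (fun ε : ℝ => (-I * τ ε) ^ (1 / 2 : ℂ)) (𝓝[>] 0) (𝓝 ((-I * (a / c)) ^ (1 / 2 : ℂ))) := by
    refine (hτ0.const_mul (-I)).cpow tendsto_const_nhds ?_
    right
    have : (-I * ((a : ℂ) / c)).im = -(a / c : ℝ) := by
      rw [show (-I * ((a : ℂ) / c)) = (((a : ℝ) / c : ℝ) : ℂ) * (-I) by push_cast; ring, im_ofReal_mul]
      simp
    rw [this]
    have : (0 : ℝ) < a / c := by positivity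
    linarith
  have hne : (-I * ((a : ℂ) / c)) ^ (1 / 2 : ℂ) ≠ 0 := by
    rw [Complex.cpow_def_of_ne_zero (by simpa using hac)]
    exact Complex.exp_ne_zero _
  -- the functional equation
  have hfe : ∀ᶠ ε in 𝓝[>] (0 : ℝ), (1 / (-I * τ ε) ^ (1 / 2 : ℂ) * cexp (-(π * I * b ^ 2 / (4 * a * c)))) *
      ((Real.sqrt ε : ℂ) * S f2 (-z) (ε * w ε)) = (Real.sqrt ε : ℂ) * S f1 0 (ε * I) := by
    filter_upwards [self_mem_nhdsWithin] with ε hε
    have hε0 : (0 : ℝ) < ε := hε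
    have hτe := hτne ε hε0
    have h1 : S f1 0 (ε * I) = jacobiTheta₂ z (τ ε) := by
      unfold S jacobiTheta₂
      refine tsum_congr fun n => ?_
      simp only [f1]
      rw [jacobiTheta₂_term, ← Complex.exp_add, hz]
      congr 1
      simp only [τ]
      push_cast
      field_simp
      ring
    have hδ : (ε : ℂ) * w ε = c / a - 1 / τ ε := by
      simp only [w]
      have : (c : ℂ) * (ε * I) = c * τ ε - a := by simp only [τ]; field_simp; ring
      field_simp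
      linear_combination this
    have h2 : jacobiTheta₂ (z / τ ε) (-1 / τ ε) = cexp (-(π * I * (ε * w ε) * z ^ 2)) * S f2 (-z) (ε * w ε) := by
      unfold S jacobiTheta₂
      rw [← tsum_mul_left]
      refine tsum_congr fun n => ?_
      simp only [f2]
      rw [jacobiTheta₂_term, ← Complex.exp_add, ← Complex.exp_add, hδ]
      congr 1
      push_cast
      rw [hz]
      field_simp
      ring
    rw [h1, jacobiTheta₂_functional_equation, h2, hδ]
    have h3 : cexp (-π * I * (z : ℂ) ^ 2 / τ ε) * cexp (-(π * I * (c / a - 1 / τ ε) * z ^ 2)) =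
        cexp (-(π * I * b ^ 2 / (4 * a * c))) := by
      rw [← Complex.exp_add, hz]
      congr 1
      field_simp
      ring
    rw [← h3]
    ring
  have hR2 := (((tendsto_const_nhds (x := (1 : ℂ))).div hpow hne).mul_const
    (cexp (-(π * I * b ^ 2 / (4 * a * c))))).mul hR
  have hL2 := hR2.congr' hfe
  have key := tendsto_nhds_unique hL hL2
  -- simplify constants
  have e1 : (-I * I : ℂ) ^ (1 / 2 : ℂ) = 1 := by
    rw [neg_mul, I_mul_I, neg_neg, Complex.one_cpow]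
  have e2 : (-I * ((((c : ℝ) / a) ^ 2 : ℝ) * I)) ^ (1 / 2 : ℂ) = c / a := by
    have : (-I * ((((c : ℝ) / a) ^ 2 : ℝ) * I)) = ((((c : ℝ) / a) ^ 2 : ℝ) : ℂ) * 1 := by
      linear_combination (-((((c : ℝ) / a) ^ 2 : ℝ) : ℂ)) * I_mul_I
    rw [this, real_mul_cpow_half (by positivity) one_ne_zero, Complex.one_cpow, Real.sqrt_sq (by positivity)]
    push_cast
    ring
  have e3 : (-I * ((a : ℂ) / c)) ^ (1 / 2 : ℂ) = (Real.sqrt (a / c) : ℂ) * cexp (-(π * I / 4)) := by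
    have : (-I * ((a : ℂ) / c)) = (((a : ℝ) / c : ℝ) : ℂ) * (-I) := by push_cast; ring
    rw [this, real_mul_cpow_half (by positivity) (by simp), neg_I_cpow_half]
  rw [e1, e2, e3] at key
  have hs1 : Real.sqrt (c / a) * Real.sqrt (a / c) = 1 := by
    rw [← Real.sqrt_mul (by positivity)]
    rw [show (c : ℝ) / a * (a / c) = 1 by field_simp]
    exact Real.sqrt_one
  have hs : (Real.sqrt (c / a) : ℂ) * (Real.sqrt (a / c) : ℂ) = 1 := by exact_mod_cast hs1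
  have hs0 : (Real.sqrt (a / c) : ℂ) ≠ 0 := right_ne_zero_of_mul_eq_one hs
  have hee : cexp (π * I / 4) * cexp (-(π * I / 4)) = 1 := by
    rw [← Complex.exp_add]; simp
  have hee0 : cexp (-(π * I / 4)) ≠ 0 := Complex.exp_ne_zero _
  have hinv : 1 / ((Real.sqrt (a / c) : ℂ) * cexp (-(π * I / 4))) = (Real.sqrt (c / a) : ℂ) * cexp (π * I / 4) := by
    rw [div_eq_iff (mul_ne_zero hs0 hee0)]
    linear_combination (-(1 : ℂ)) * hs * (cexp (π * I / 4) * cexp (-(π * I / 4))) - hee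
  have h5 : ∑ s : Fin c, f1 (s : ℕ) = (c : ℂ) * (1 / (c * 1) * ∑ s : Fin c, f1 (s : ℕ)) := by
    field_simp
  have h6 : ∑ n : Fin c, cexp (π * I * (a * ((n : ℕ) : ℂ) ^ 2 + b * ((n : ℕ) : ℂ)) / c) = ∑ s : Fin c, f1 (s : ℕ) := by
    refine Finset.sum_congr rfl fun s _ => ?_
    simp [f1]
  have h7 : ∑ n : Fin a, cexp (π * I * (b * ((n : ℕ) : ℂ) - c * ((n : ℕ) : ℂ) ^ 2) / a) = ∑ s : Fin a, f2 (s : ℕ) := by
    refine Finset.sum_congr rfl fun s _ => ?_
    simp [f2]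
  rw [h6, h7, h5, key, hinv]
  field_simp

end Recip
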